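import Pool.Agent.Lib.MP_6d445e_gt.Iface2

/-!
Module SEQ: the sequence lemma for good sets.
-/

universe u v w

open Cardinal Filter

namespace Pool.Agent.Lib.MP_6d445e_gt.H38.SeqAux

open Pool.Agent.Lib.MP_6d445e_gt
open Pool.Agent.Lib.MP_100a6c_lc
open Pool.Agent.Lib.MP_c5d73d_lc.F (pr)
open Pool.Agent.Lib.MP_e6fef2_lc

section

variable {A : Type u} [CompleteBooleanAlgebra A]

theorem mem_iInf_prop (g : Ult A) (P : Prop) (a : P → A) :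
    (⨅ h : P, a h) ∈ g ↔ ∀ h : P, a h ∈ g := by
  by_cases hP : P
  · simp [hP]
  · simp [hP, g.mem_top]

theorem mem_iSup_prop (g : Ult A) (P : Prop) (a : P → A) :
    (⨆ h : P, a h) ∈ g ↔ ∃ h : P, a h ∈ g := by
  by_cases hP : P
  · simp [hP]
  · simp [hP, g.not_bot]

theorem ae_disn (n : ℕ) (x Y : ℕ → A) : ∀ᶠ g in ae A, disn n x Y ∈ g ↔
    ∀ p, n ≤ p → ∀ i, ¬ (x (Nat.pair p i) ∈ g ∧ Y (Nat.pair p i) ∈ g) := by
  have h1 := ae_iInf (A := A) fun p : ℕ => ⨅ _ : n ≤ p, ⨅ i, (x (Nat.pair p i) ⊓ Y (Nat.pair p i))ᶜ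
  have h2 : ∀ᶠ g in ae A, ∀ p : ℕ, (⨅ i, (x (Nat.pair p i) ⊓ Y (Nat.pair p i))ᶜ) ∈ g ↔
      ∀ i, (x (Nat.pair p i) ⊓ Y (Nat.pair p i))ᶜ ∈ g := ae_all fun p => ae_iInf _
  filter_upwards [h1, h2] with g h1 h2
  unfold disn
  rw [h1]
  refine forall_congr' fun p => ?_
  rw [mem_iInf_prop]
  refine forall_congr' fun _ => ?_
  rw [h2]
  refine forall_congr' fun i => ?_
  rw [g.mem_compl, g.mem_inf]

theorem ae_cut (Y : ℕ → A) : ∀ᶠ g in ae A, cut Y ∈ g ↔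
    ∀ m, ∃ k, m ≤ k ∧ ∀ p, p < k → ∀ i, k ≤ i → Y (Nat.pair p i) ∉ g := by
  have h1 := ae_iInf (A := A) fun m : ℕ => ⨆ k, ⨆ _ : m ≤ k, ⨅ p, ⨅ _ : p < k, ⨅ i,
    ⨅ _ : k ≤ i, (Y (Nat.pair p i))ᶜ
  have h2 : ∀ᶠ g in ae A, ∀ m : ℕ, (⨆ k, ⨆ _ : m ≤ k, ⨅ p, ⨅ _ : p < k, ⨅ i,
    ⨅ _ : k ≤ i, (Y (Nat.pair p i))ᶜ) ∈ g ↔ ∃ k, (⨆ _ : m ≤ k, ⨅ p, ⨅ _ : p < k, ⨅ i,
    ⨅ _ : k ≤ i, (Y (Nat.pair p i))ᶜ) ∈ g := ae_all fun m => ae_iSup _
  have h3 : ∀ᶠ g in ae A, ∀ k : ℕ, (⨅ p, ⨅ _ : p < k, ⨅ i,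
    ⨅ _ : k ≤ i, (Y (Nat.pair p i))ᶜ) ∈ g ↔ ∀ p, (⨅ _ : p < k, ⨅ i,
    ⨅ _ : k ≤ i, (Y (Nat.pair p i))ᶜ) ∈ g := ae_all fun k => ae_iInf _
  have h4 : ∀ᶠ g in ae A, ∀ k p : ℕ, (⨅ i, ⨅ _ : k ≤ i, (Y (Nat.pair p i))ᶜ) ∈ g ↔
      ∀ i, (⨅ _ : k ≤ i, (Y (Nat.pair p i))ᶜ) ∈ g := ae_all fun k => ae_all fun p => ae_iInf _
  filter_upwards [h1, h2, h3, h4] with g h1 h2 h3 h4
  unfold cut
  rw [h1]
  refine forall_congr' fun m => ?_
  rw [h2]
  refine exists_congr fun k => ?_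
  rw [mem_iSup_prop, h3]
  rw [exists_prop]
  refine and_congr_right fun _ => forall_congr' fun p => ?_
  rw [mem_iInf_prop]
  refine forall_congr' fun _ => ?_
  rw [h4]
  refine forall_congr' fun i => ?_
  rw [mem_iInf_prop]
  refine forall_congr' fun _ => ?_
  rw [g.mem_compl]

theorem gc_gen (N : Set El.{u}) (Y : ℕ → A) : gc N Y ≤ gen A N := inf_le_left.trans inf_le_left

theorem gc_cut (N : Set El.{u}) (Y : ℕ → A) : gc N Y ≤ cut Y := inf_le_left.trans inf_le_right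

theorem gc_le (N : Set El.{u}) (Y x : ℕ → A) (hx : In N x) (hs : Sl x) :
    gc N Y ≤ ⨆ n, disn n x Y :=
  inf_le_right.trans ((iInf_le _ x).trans ((iInf_le _ hx).trans (iInf_le _ hs)))

end

theorem club_countable (T : Type u) : ∀ᶠ N in club.{u}, Countable {t : T // In N t} := by
  filter_upwards [all_club.{u}.2.1] with N hN
  have h1 : Function.Injective (fun t : {t : T // In N t} => (⟨⟨T, t.1⟩, t.2⟩ : N)) := by
    intro a b h
    have h2 := congrArg Subtype.val h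
    simp only [Sigma.mk.injEq, heq_eq_eq, true_and] at h2
    exact Subtype.ext h2
  have := hN.to_subtype
  exact h1.countable

theorem ae_all_in {A : Type u} [CompleteBooleanAlgebra A] {T : Type u} {N : Set El.{u}}
    (hN : Countable {t : T // In N t}) {P : T → Ult A → Prop}
    (h : ∀ t, In N t → ∀ᶠ g in ae A, P t g) : ∀ᶠ g in ae A, ∀ t, In N t → P t g := by
  have h1 : ∀ᶠ g in ae A, ∀ t : {t : T // In N t}, P t.1 g := ae_all fun t => h t.1 t.2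
  filter_upwards [h1] with g hg t ht
  exact hg ⟨t, ht⟩

end Pool.Agent.Lib.MP_6d445e_gt.H38.SeqAux

namespace Pool.Agent.Lib.MP_6d445e_gt.H38

open Pool.Agent.Lib.MP_6d445e_gt
open Pool.Agent.Lib.MP_100a6c_lc
open Pool.Agent.Lib.MP_c5d73d_lc.F (pr)
open Pool.Agent.Lib.MP_e6fef2_lc
open SeqAux

theorem seq (hD : DisjStatement.{u}) (hNG : NgStatement.{u}) (hSla : SlaStatement.{u}) :
    SeqStatement.{u} := by
  intro A T _
  classical
  choose dr hdr1 hdr2 hdr3 using hD A T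
  -- the names
  let ZZ : (ℕ → T → A) → (ℕ → T → ℕ → A) → ℕ → ℕ → A := fun w b k n =>
    ⨆ t, dr (w k) t ⊓ b k t n
  let SS : (ℕ → T → A) → (ℕ → T → ℕ → A) → ℕ → A := fun w b n =>
    (⨅ k, ⨆ t, w k t) ⊓ ⨆ k, ⨆ _ : k ≤ n.unpair.1 ^ 2, ZZ w b k n
  have hcl1 : ∀ᶠ N in club, ∀ (w : ℕ → T → A) (b : ℕ → T → ℕ → A), In N w → In N b →
      In N (SS w b) := all_club.2.2.2.2.2.2.1 _ _ _ SS
  have hcl2 : ∀ᶠ N in club, ∀ k : ℕ, ∀ (w : ℕ → T → A), In N w → In N (dr (w k)) :=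
    all_club.2.2.1 _ fun k => all_club.2.2.2.2.2.1 _ _ fun w : ℕ → T → A => dr (w k)
  filter_upwards [hcl1, hcl2, hNG A T, club_countable T] with N hN1 hN2 hN3 hNc w b z r hw hb _ hagr
    hsl Y
  obtain ⟨-, sla2, -, sla4, sla5, sla6⟩ := hSla A
  set W : A := ⨅ k, ⨆ t, w k t with hW
  -- the name `SS w b` is a slalom
  have hS : Sl (SS w b) := by
    refine ⟨fun p => (p ^ 2 + 1) * r p, ?_⟩
    have h1 : ∀ k, SlOn r W (ZZ w b k) := by
      intro k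
      have h2 : ∀ t, SlOn r (dr (w k) t) (ZZ w b k) := by
        intro t
        refine sla4 r _ (b k t) _ (fun n => ?_) (sla2 r r (w k t) _ _ (fun _ => le_rfl)
          (hdr1 (w k) t) (hsl k t))
        show dr (w k) t ⊓ (⨆ t', dr (w k) t' ⊓ b k t' n) ≤ b k t n
        rw [inf_iSup_eq]
        refine iSup_le fun t' => ?_
        by_cases htt : t = t'
        · subst htt
          exact inf_le_right.trans inf_le_right
        · rw [← inf_assoc, hdr2 (w k) t t' htt, bot_inf_eq]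
          exact bot_le
      have h3 := sla6 T _ r _ h2
      rw [hdr3] at h3
      exact sla2 r r _ _ _ (fun _ => le_rfl) (iInf_le _ k) h3
    have h4 := sla5 r W (ZZ w b) (fun p => p ^ 2) h1
    filter_upwards [h4] with g hg _ p
    by_cases hWg : W ∈ g
    · refine le_trans (Set.encard_le_encard ?_) (hg hWg p)
      intro i hi
      exact g.mono inf_le_right hi
    · have : {i | SS w b (Nat.pair p i) ∈ g} = ∅ := by
        ext i
        simp only [Set.mem_ofPred_eq, Set.mem_empty_iff_false, iff_false]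
        exact fun hi => hWg (g.mono inf_le_left hi)
      rw [this]
      simp
  have a1 := ae_cut Y
  have a2 := ae_disn 0 z Y
  have a3 := ae_iSup (A := A) fun n => disn n (SS w b) Y
  have a4 : ∀ᶠ g in ae A, ∀ n, disn n (SS w b) Y ∈ g ↔ _ := ae_all fun n => ae_disn n (SS w b) Y
  have a5 : ∀ᶠ g in ae A, ∀ k n, (⨆ t, dr (w k) t ⊓ b k t n) ∈ g ↔
      ∃ t, dr (w k) t ⊓ b k t n ∈ g := ae_all fun k => ae_all fun n => ae_iSup _
  have a6 : ∀ᶠ g in ae A, W ∈ g ↔ ∀ k, (⨆ t, w k t) ∈ g := ae_iInf _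
  have a7 : ∀ᶠ g in ae A, ∀ t, In N t → ∀ k, dis (b k t) Y ∈ g ↔
      ∀ p, 0 ≤ p → ∀ i, ¬ (b k t (Nat.pair p i) ∈ g ∧ Y (Nat.pair p i) ∈ g) :=
    ae_all_in hNc fun t _ => ae_all fun k => ae_disn 0 (b k t) Y
  filter_upwards [a1, a2, a3, a4, a5, a6, a7, hN3] with g a1 a2 a3 a4 a5 a6 a7 a8 hgc hdis hsup m
  have hWg : W ∈ g := a6.2 hsup
  obtain ⟨n₀, hn₀⟩ := a3.1 (g.mono (gc_le N Y _ (hN1 w b hw hb) hS) hgc)
  rw [a4] at hn₀
  obtain ⟨K, hK, hKY⟩ := a1.1 (g.mono (gc_cut N Y) hgc) (max n₀ (max m 1))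
  have hKn : n₀ ≤ K := (le_max_left _ _).trans hK
  have hKm : m ≤ K := (le_max_left _ _).trans ((le_max_right _ _).trans hK)
  have hK1 : 1 ≤ K := (le_max_right _ _).trans ((le_max_right _ _).trans hK)
  have hdis' := a2.1 hdis
  have claim : ∀ p i, ¬ (ZZ w b (K ^ 2) (Nat.pair p i) ∈ g ∧ Y (Nat.pair p i) ∈ g) := by
    rintro p i ⟨h1, h2⟩
    rcases lt_or_ge p K with hp | hp
    · have hi : i < K := by
        by_contra hcon
        push Not at hcon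
        exact hKY p hp i hcon h2
      have hlt : Nat.pair p i < K ^ 2 := by
        refine lt_of_lt_of_le (Nat.pair_lt_max_add_one_sq p i) ?_
        exact Nat.pow_le_pow_left (by omega) 2
      obtain ⟨t, ht⟩ := (a5 (K ^ 2) (Nat.pair p i)).1 h1
      rw [g.mem_inf] at ht
      have h3 : agr (fun a : A => a) z (b (K ^ 2) t) (K ^ 2) ∈ g :=
        g.mono ((hdr1 _ t).trans (hagr _ t)) ht.1
      have h4 : (z (Nat.pair p i) ⊓ b (K ^ 2) t (Nat.pair p i)) ⊔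
          ((z (Nat.pair p i))ᶜ ⊓ (b (K ^ 2) t (Nat.pair p i))ᶜ) ∈ g :=
        g.mono ((iInf_le _ (Nat.pair p i)).trans (iInf_le _ hlt)) h3
      rw [g.mem_sup, g.mem_inf, g.mem_inf, g.mem_compl, g.mem_compl] at h4
      have h5 : z (Nat.pair p i) ∈ g := by
        rcases h4 with h4 | h4
        · exact h4.1
        · exact absurd ht.2 h4.2
      exact hdis' p (Nat.zero_le _) i ⟨h5, h2⟩
    · refine hn₀ p (hKn.trans hp) i ⟨?_, h2⟩
      refine g.mono ?_ (g.inf _ _ hWg h1)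
      refine inf_le_inf_left _ ?_
      have h6 : K ^ 2 ≤ (Nat.pair p i).unpair.1 ^ 2 := by
        rw [Nat.unpair_pair]
        exact Nat.pow_le_pow_left hp 2
      exact le_iSup_of_le (K ^ 2) (le_iSup_of_le h6 le_rfl)
  have hsup' : (⨆ t, dr (w (K ^ 2)) t) ∈ g := by
    rw [hdr3]
    exact hsup _
  obtain ⟨t, htN, ht⟩ := a8 (g.mono (gc_gen N Y) hgc) _ (hN2 (K ^ 2) w hw) hsup'
  refine ⟨K ^ 2, ?_, t, htN, g.mono (hdr1 _ t) ht, ?_⟩
  · have : K ≤ K ^ 2 := by nlinarith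
    omega
  · rw [a7 t htN (K ^ 2)]
    rintro p - i ⟨h1, h2⟩
    refine claim p i ⟨?_, h2⟩
    exact g.mono (le_iSup (fun t => dr (w (K ^ 2)) t ⊓ b (K ^ 2) t (Nat.pair p i)) t)
      (g.inf _ _ ht h1)

end Pool.Agent.Lib.MP_6d445e_gt.H38
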