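import Pool.Agent.Lib.MP_6d445e_gt.V.Iface3

/-!
Modules GRQ and GDX: the quotient of a Boolean-valued group by an ultrafilter, and the data of a
group.
-/

universe u v w

open Cardinal Filter

namespace Pool.Agent.Lib.MP_6d445e_gt.H38

open Pool.Agent.Lib.MP_6d445e_gt

theorem grq : GrqStatement.{u, v} := by
  intro B _ Λ Γ D hD h hΓ
  classical
  have tr2 : ∀ {a b c : B}, Γ ⊓ a ⊓ b ≤ c → a ∈ h → b ∈ h → c ∈ h := fun hle ha hb =>
    h.mono hle (h.inf _ _ (h.inf _ _ hΓ ha) hb)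
  let s : Setoid Λ :=
    { r := fun x y => D.eq x y ∈ h
      iseqv :=
        { refl := fun x => h.mono (hD.refl x) hΓ
          symm := fun {x y} hxy => h.mono (hD.symm x y) (h.inf _ _ hΓ hxy)
          trans := fun {x y z} hxy hyz => tr2 (hD.trans x y z) hxy hyz } }
  let Q := Quotient s
  let π : Λ → Q := Quotient.mk s
  have hπ : ∀ x y, π x = π y ↔ D.eq x y ∈ h := fun x y =>
    ⟨fun hxy => Quotient.exact hxy, fun hxy => Quotient.sound hxy⟩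
  let im : Mul Q := ⟨Quotient.map₂ D.mul fun x x' hx y y' hy => tr2 (hD.mulc x x' y y') hx hy⟩
  let io : One Q := ⟨π D.one⟩
  let ii : Inv Q := ⟨fun q => π (D.inv q.out)⟩
  have hmul : ∀ x y, π (D.mul x y) = π x * π y := fun x y => rfl
  have hsurj : Function.Surjective π := Quotient.mk_surjective
  have hone : ∀ a : Q, 1 * a = a := by
    intro a
    obtain ⟨x, rfl⟩ := hsurj a
    exact (hπ _ _).2 (h.mono (hD.one_mul x) hΓ)
  have hassoc : ∀ a b c : Q, a * b * c = a * (b * c) := by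
    intro a b c
    obtain ⟨x, rfl⟩ := hsurj a
    obtain ⟨y, rfl⟩ := hsurj b
    obtain ⟨z, rfl⟩ := hsurj c
    exact (hπ _ _).2 (h.mono (hD.assoc x y z) hΓ)
  have hinv : ∀ a : Q, a⁻¹ * a = 1 := by
    intro a
    have h1 : π a.out = a := Quotient.out_eq a
    have h2 : π (D.mul (D.inv a.out) a.out) = π D.one := (hπ _ _).2 (h.mono (hD.inv_mul _) hΓ)
    rw [hmul, h1] at h2
    exact h2
  let G : Group Q := Group.ofLeftAxioms hassoc hone hinv
  refine ⟨Q, G, π, hsurj, hπ, fun x y => rfl, fun x => ?_, rfl⟩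
  have h2 : π (D.mul (D.inv x) x) = π D.one := (hπ _ _).2 (h.mono (hD.inv_mul _) hΓ)
  have h3 : π (D.inv x) * π x = 1 := h2
  exact eq_inv_of_mul_eq_one_left h3

section

variable {B : Type u} [CompleteBooleanAlgebra B] {Λ : Type v}

/-- The value of: `n` is the least number with `r n` (on `Γ`). -/
def lst (Γ : B) (r : ℕ → B) (n : ℕ) : B :=
  (Γ ⊓ r n ⊓ ⨅ n' ∈ Finset.range n, (r n')ᶜ) ⊔ (Γᶜ ⊓ if n = 0 then ⊤ else ⊥)

theorem mem_lst {Γ : B} {r : ℕ → B} {n : ℕ} {h : Ult B} (hΓ : Γ ∈ h) :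
    lst Γ r n ∈ h ↔ r n ∈ h ∧ ∀ n' < n, r n' ∉ h := by
  unfold lst
  rw [h.mem_sup, h.mem_inf, h.mem_inf, h.mem_inf, h.mem_finset_iInf, h.mem_compl]
  simp only [Finset.mem_range, h.mem_compl]
  tauto

theorem lst_unique {Γ : B} {r : ℕ → B} {h : Ult B} (hr : Γ ∈ h → ∃ n, r n ∈ h) :
    ∃! n, lst Γ r n ∈ h := by
  classical
  by_cases hΓ : Γ ∈ h
  · refine ⟨Nat.find (hr hΓ), ?_, fun m hm => ?_⟩
    · exact (mem_lst hΓ).2 ⟨Nat.find_spec (hr hΓ), fun n' hn' => Nat.find_min (hr hΓ) hn'⟩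
    · have h1 := (mem_lst hΓ).1 hm
      refine le_antisymm ?_ (Nat.find_min' (hr hΓ) h1.1)
      by_contra hcon
      push Not at hcon
      exact h1.2 _ hcon (Nat.find_spec (hr hΓ))
  · have hiff : ∀ n, lst Γ r n ∈ h ↔ n = 0 := by
      intro n
      unfold lst
      rw [h.mem_sup, h.mem_inf, h.mem_inf, h.mem_inf, h.mem_compl]
      split_ifs with hn
      · simp [hn, hΓ, h.mem_top]
      · simp [hn, hΓ, h.not_bot]
    exact ⟨0, (hiff 0).2 rfl, fun m hm => (hiff m).1 hm⟩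

theorem isFN_lst {Γ : B} {r : ℕ → ℕ → B} (hr : ∀ p, Γ ≤ ⨆ n, r p n) :
    IsFN fun p n => lst Γ (r p) n := by
  have h1 : ∀ᶠ h in ae B, ∀ p, (⨆ n, r p n) ∈ h ↔ ∃ n, r p n ∈ h := ae_all fun p => ae_iSup _
  filter_upwards [h1] with h h1 p
  exact lst_unique fun hΓ => (h1 p).1 (h.mono (hr p) hΓ)

/-- The value of: conjugation with `d i` maps `U n` into `U (c + 2)`. -/
def cnv (D : BG B Λ) (U : ℕ → Λ → B) (d : ℕ → Λ) (c i n : ℕ) : B :=
  ⨅ x, U n x ⇨ U (c + 2) (D.mul (D.mul (D.inv (d i)) x) (d i))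

/-- The data. -/
def gd (Γ : B) (D : BG B Λ) (U : ℕ → Λ → B) (d : ℕ → Λ) : GD B Λ where
  rel := rl D U d
  inv := D.inv
  quo x y := D.mul (D.inv x) y
  rd x k := D.mul x (d k)
  be p n := lst Γ (cnv D U d p.unpair.1 p.unpair.2) n
  en p n := lst Γ (fun j => U (p.unpair.2.unpair.2 + 1)
    (D.mul (D.inv (d j)) (D.mul (d p.unpair.1) (d p.unpair.2.unpair.1)))) n

/-- What is needed from an ultrafilter containing `Γ`. -/
theorem quot (hG : GrqStatement.{u, v}) {Γ : B} {D : BG B Λ} {U : ℕ → Λ → B} {d : ℕ → Λ}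
    (hD : BGR Γ D) (hU : BGU Γ D U d) (h : Ult B) (hΓ : Γ ∈ h) :
    ∃ (Q : Type v) (_ : Group Q) (π : Λ → Q) (W : ℕ → Set Q),
      (∀ x n i, rl D U d x n i ∈ h ↔ (π (d i))⁻¹ * π x ∈ W n) ∧
      (∀ n x, π x ∈ W n ↔ U n x ∈ h) ∧
      (∀ x y, π (D.mul x y) = π x * π y) ∧ (∀ x, π (D.inv x) = (π x)⁻¹) ∧
      (∀ n a b, a ∈ W (n + 1) → b ∈ W (n + 1) → a * b ∈ W n) ∧
      (∀ n a b, a ∈ W (n + 1) → b ∈ W (n + 1) → a * b⁻¹ ∈ W n) ∧
      (∀ m n, m ≤ n → W n ⊆ W m) ∧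
      ∀ c i n, cnv D U d c i n ∈ h → ∀ a ∈ W n, (π (d i))⁻¹ * a * π (d i) ∈ W (c + 2) := by
  obtain ⟨Q, _, π, hs, hπ, hm, hi, h1⟩ := hG B Λ Γ D hD h hΓ
  have key : ∀ n x, π x ∈ {q | ∃ x, π x = q ∧ U n x ∈ h} ↔ U n x ∈ h := by
    intro n x
    constructor
    · rintro ⟨x', hx', hU'⟩
      exact h.mono (hU.congr n x' x) (h.inf _ _ (h.inf _ _ hΓ ((hπ _ _).1 hx')) hU')
    · intro hx
      exact ⟨x, rfl, hx⟩
  have hmi : ∀ n, ∀ a b : Q, a ∈ {q | ∃ x, π x = q ∧ U (n + 1) x ∈ h} →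
      b ∈ {q | ∃ x, π x = q ∧ U (n + 1) x ∈ h} → a * b⁻¹ ∈ {q | ∃ x, π x = q ∧ U n x ∈ h} := by
    rintro n _ _ ⟨x, rfl, hx⟩ ⟨y, rfl, hy⟩
    refine ⟨D.mul x (D.inv y), by rw [hm, hi], ?_⟩
    exact h.mono (hU.mulinv n x y) (h.inf _ _ (h.inf _ _ hΓ hx) hy)
  have hone : ∀ n, (1 : Q) ∈ {q | ∃ x, π x = q ∧ U n x ∈ h} := fun n =>
    ⟨D.one, h1, h.mono (hU.one n) hΓ⟩
  refine ⟨Q, _, π, fun n => {q | ∃ x, π x = q ∧ U n x ∈ h}, ?_, key, hm, hi, ?_, hmi, ?_, ?_⟩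
  · intro x n i
    have h2 := key n (D.mul (D.inv (d i)) x)
    rw [hm, hi] at h2
    exact h2.symm
  · rintro n _ _ ⟨x, rfl, hx⟩ ⟨y, rfl, hy⟩
    refine ⟨D.mul x y, hm x y, ?_⟩
    exact h.mono (hU.mul n x y) (h.inf _ _ (h.inf _ _ hΓ hx) hy)
  · intro m n hmn
    induction hmn with
    | refl => exact subset_rfl
    | step _ ih =>
      refine subset_trans (fun a ha => ?_) ih
      have h2 := hmi _ a 1 ha (hone _)
      rwa [inv_one, mul_one] at h2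
  · rintro c i n hc _ ⟨x, rfl, hx⟩
    refine ⟨D.mul (D.mul (D.inv (d i)) x) (d i), by rw [hm, hm, hi], ?_⟩
    have h2 : (U n x ⇨ U (c + 2) (D.mul (D.mul (D.inv (d i)) x) (d i))) ∈ h :=
      h.mono (iInf_le _ x) hc
    exact h.mem_himp.1 h2 hx

end

theorem gdx (hG : GrqStatement.{u, v}) : GdxStatement.{u, v} := by
  intro B _ Λ Γ D U d hD hU hM hF
  have hq := fun h hΓ => quot hG hD hU h hΓ
  refine ⟨gd Γ D U d, ?_, ?_, ?_, ?_, ?_, ?_, ?_, ?_, ?_, ?_, ?_, ?_⟩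
  · exact isFN_lst fun p => hU.cnj (p.unpair.1 + 2) p.unpair.2
  · exact isFN_lst fun p => hU.dns (p.unpair.2.unpair.2 + 1) _
  · intro x
    refine Filter.Eventually.of_forall fun h hΓ n i => ?_
    obtain ⟨Q, _, π, W, h1, h2, h3, h4, h5, h6, h7, h8⟩ := hq h hΓ
    show rl D U d (D.inv (D.inv x)) n i ∈ h ↔ rl D U d x n i ∈ h
    rw [h1, h1, h4, h4, inv_inv]
  · intro x y
    refine Filter.Eventually.of_forall fun h hΓ n i => ?_
    obtain ⟨Q, _, π, W, h1, h2, h3, h4, h5, h6, h7, h8⟩ := hq h hΓ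
    show rl D U d (D.inv (D.mul (D.inv x) y)) n i ∈ h ↔ rl D U d (D.mul (D.inv y) x) n i ∈ h
    rw [h1, h1, h4, h3, h3, h4, h4, mul_inv_rev, inv_inv]
  · intro x
    have h1 : ∀ᶠ h in ae B, ∀ n, (⨆ i, U n (D.mul (D.inv (d i)) x)) ∈ h ↔
        ∃ i, U n (D.mul (D.inv (d i)) x) ∈ h := ae_all fun n => ae_iSup _
    filter_upwards [h1] with h h1 hΓ n
    exact (h1 n).1 (h.mono (hU.dns n x) hΓ)
  · intro x
    refine Filter.Eventually.of_forall fun h hΓ n i hx => ?_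
    obtain ⟨Q, _, π, W, h1, h2, h3, h4, h5, h6, h7, h8⟩ := hq h hΓ
    have hx' : rl D U d x (n + 1) i ∈ h := hx
    show rl D U d x n i ∈ h
    rw [h1] at hx' ⊢
    exact h7 n (n + 1) (Nat.le_succ n) hx'
  · intro v x
    refine Filter.Eventually.of_forall fun h hΓ n j k i hn ha hb => ?_
    obtain ⟨Q, _, π, W, h1, h2, h3, h4, h5, h6, h7, h8⟩ := hq h hΓ
    have ha' : rl D U d (D.mul (D.inv v) x) n k ∈ h := ha
    have hb' : rl D U d x (j + 1) i ∈ h := hb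
    show rl D U d (D.mul v (d k)) j i ∈ h
    rw [h1, h3, h4] at ha'
    rw [h1] at hb'
    rw [h1, h3]
    have := h6 j _ _ hb' (h7 _ _ hn ha')
    convert this using 1
    group
  · intro v x
    refine Filter.Eventually.of_forall fun h hΓ n j k i hn ha hb => ?_
    obtain ⟨Q, _, π, W, h1, h2, h3, h4, h5, h6, h7, h8⟩ := hq h hΓ
    have ha' : rl D U d (D.mul (D.inv v) x) n k ∈ h := ha
    have hb' : rl D U d (D.mul v (d k)) (j + 1) i ∈ h := hb
    show rl D U d x j i ∈ h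
    rw [h1, h3, h4] at ha'
    rw [h1, h3] at hb'
    rw [h1]
    have := h5 j _ _ hb' (h7 _ _ hn ha')
    convert this using 1
    group
  · intro v x
    refine Filter.Eventually.of_forall fun h hΓ n k c i j b hb ha hx hbe hen => ?_
    obtain ⟨Q, _, π, W, h1, h2, h3, h4, h5, h6, h7, h8⟩ := hq h hΓ
    have ha' : rl D U d (D.mul (D.inv v) x) n k ∈ h := ha
    have hx' : rl D U d (D.inv x) (c + 2) i ∈ h := hx
    have hbe' : cnv D U d (Nat.pair c i).unpair.1 (Nat.pair c i).unpair.2 b ∈ h :=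
      ((mem_lst hΓ).1 hbe).1
    have hen0 : lst Γ (fun j => U ((Nat.pair k (Nat.pair i c)).unpair.2.unpair.2 + 1)
        (D.mul (D.inv (d j)) (D.mul (d (Nat.pair k (Nat.pair i c)).unpair.1)
          (d (Nat.pair k (Nat.pair i c)).unpair.2.unpair.1)))) j ∈ h := hen
    have hen' := ((mem_lst hΓ).1 hen0).1
    show rl D U d (D.inv v) c j ∈ h
    rw [Nat.unpair_pair] at hbe'
    simp only [Nat.unpair_pair] at hen'
    rw [← h2, h3, h4, h3] at hen'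
    rw [h1, h3, h4] at ha'
    rw [h1, h4] at hx'
    rw [h1, h4]
    have e1 := h8 c i b hbe' _ (h7 _ _ hb ha')
    have e2 := h5 (c + 1) _ _ e1 hx'
    have e3 := h5 c _ _ hen' e2
    convert e3 using 1
    group
  · intro v x
    refine Filter.Eventually.of_forall fun h hΓ n m k c i j b hb hc ha hx hbe hen => ?_
    obtain ⟨Q, _, π, W, h1, h2, h3, h4, h5, h6, h7, h8⟩ := hq h hΓ
    have ha' : rl D U d (D.mul (D.inv x) v) n k ∈ h := ha
    have hx' : rl D U d x m i ∈ h := hx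
    have hbe' : cnv D U d (Nat.pair c k).unpair.1 (Nat.pair c k).unpair.2 b ∈ h :=
      ((mem_lst hΓ).1 hbe).1
    have hen0 : lst Γ (fun j => U ((Nat.pair i (Nat.pair k c)).unpair.2.unpair.2 + 1)
        (D.mul (D.inv (d j)) (D.mul (d (Nat.pair i (Nat.pair k c)).unpair.1)
          (d (Nat.pair i (Nat.pair k c)).unpair.2.unpair.1)))) j ∈ h := hen
    have hen' := ((mem_lst hΓ).1 hen0).1
    show rl D U d v c j ∈ h
    rw [Nat.unpair_pair] at hbe'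
    simp only [Nat.unpair_pair] at hen'
    rw [← h2, h3, h4, h3] at hen'
    rw [h1, h3, h4] at ha'
    rw [h1] at hx'
    rw [h1]
    have e1 := h8 c k b hbe' _ (h7 _ _ hb hx')
    have e2 := h5 (c + 1) _ _ e1 (h7 _ _ hc ha')
    have e3 := h5 c _ _ hen' e2
    convert e3 using 1
    group
  · exact hM
  · exact hF

end Pool.Agent.Lib.MP_6d445e_gt.H38
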