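import Pool.Agent.Lib.MP_6d445e_gt.Iface2

/-!
Modules UB1 and UB2: unboundedness over `N`.
-/

universe u v w

open Cardinal Filter

namespace Pool.Agent.Lib.MP_6d445e_gt.H38

open Pool.Agent.Lib.MP_6d445e_gt
open Pool.Agent.Lib.MP_100a6c_lc
open Pool.Agent.Lib.MP_c5d73d_lc.F (pr)
open Pool.Agent.Lib.MP_e6fef2_lc

/-! ### Measurability -/

section

variable {A : Type u} [CompleteBooleanAlgebra A]

theorem meas_comp {a : Ult A → ℕ} {b : ℕ → Ult A → ℕ} (ha : Measurable a)
    (hb : ∀ i, Measurable (b i)) : Measurable fun g => b (a g) g := by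
  refine measurable_to_countable' fun k => ?_
  have : (fun g => b (a g) g) ⁻¹' {k} = ⋃ i, (a ⁻¹' {i} ∩ b i ⁻¹' {k}) := by
    ext g
    simp
  rw [this]
  exact MeasurableSet.iUnion fun i =>
    (ha (MeasurableSet.of_discrete)).inter (hb i (MeasurableSet.of_discrete))

theorem meas_sInf {P : ℕ → Ult A → Prop} (hP : ∀ k, MeasurableSet {g | P k g}) :
    Measurable fun g => sInf {k | P k g} := by
  classical
  refine measurable_to_countable' fun j => ?_
  have : (fun g => sInf {k | P k g}) ⁻¹' {j} =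
      ({g | P j g} ∩ ⋂ i, ⋂ _ : i < j, {g | P i g}ᶜ) ∪
        (⋂ k, {g | P k g}ᶜ) ∩ {_g | j = 0} := by
    ext g
    simp only [Set.mem_preimage, Set.mem_singleton_iff, Set.mem_union, Set.mem_inter_iff,
      Set.mem_ofPred_eq, Set.mem_iInter, Set.mem_compl_iff]
    constructor
    · intro h
      by_cases hne : {k | P k g}.Nonempty
      · left
        subst h
        exact ⟨Nat.sInf_mem hne, fun i hi => Nat.notMem_of_lt_sInf hi⟩
      · right
        rw [Set.not_nonempty_iff_eq_empty] at hne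
        refine ⟨fun k hk => ?_, ?_⟩
        · have : k ∈ {k | P k g} := hk
          rw [hne] at this
          exact this
        · rw [hne] at h
          rw [← h, Nat.sInf_empty]
    · rintro (⟨h1, h2⟩ | ⟨h1, h2⟩)
      · refine le_antisymm (Nat.sInf_le h1) ?_
        by_contra hcon
        push Not at hcon
        have h3 : sInf {k | P k g} ∈ {k | P k g} := Nat.sInf_mem ⟨j, h1⟩
        exact h2 _ hcon h3
      · have : {k | P k g} = ∅ := by
          ext k
          simp [h1 k]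
        rw [this, Nat.sInf_empty, h2]
  rw [this]
  refine ((hP j).inter ?_).union ((MeasurableSet.iInter fun k => (hP k).compl).inter ?_)
  · exact MeasurableSet.iInter fun i => MeasurableSet.iInter fun _ => (hP i).compl
  · by_cases hj : j = 0
    · simp [hj]
    · simp [hj]

theorem meas_fv (F : ℕ → ℕ → A) (n : ℕ) : Measurable fun g => fv F g n :=
  meas_sInf fun k => measurable_mem A (F n k)

theorem meas_fv' (F : ℕ → ℕ → A) {a : Ult A → ℕ} (ha : Measurable a) :
    Measurable fun g => fv F g (a g) :=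
  meas_comp (b := fun i g => fv F g i) ha (meas_fv F)

theorem meas_fun (f : ℕ → ℕ) {a : Ult A → ℕ} (ha : Measurable a) :
    Measurable fun g => f (a g) :=
  (Measurable.of_discrete (f := f)).comp ha

theorem meas_fun2 (f : ℕ → ℕ → ℕ) {a b : Ult A → ℕ} (ha : Measurable a) (hb : Measurable b) :
    Measurable fun g => f (a g) (b g) :=
  meas_comp (b := fun i g => f i (b g)) ha fun i => meas_fun (f i) hb

theorem meas_mx (F : ℕ → ℕ → A) {a : Ult A → ℕ} (ha : Measurable a) :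
    Measurable fun g => mx (fv F g) (a g) := by
  refine meas_comp (b := fun i g => mx (fv F g) i) ha fun i => ?_
  induction i with
  | zero =>
    have : (fun g : Ult A => mx (fv F g) 0) = fun g => fv F g 0 := by
      funext g
      simp [mx]
    rw [this]
    exact meas_fv F 0
  | succ i ih =>
    have : (fun g : Ult A => mx (fv F g) (i + 1)) = fun g => max (fv F g (i + 1)) (mx (fv F g) i) := by
      funext g
      unfold mx
      rw [Finset.range_add_one, Finset.sup_insert]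
    rw [this]
    exact meas_fun2 max (meas_fv F _) ih

/-- The least `k` with `n ≤ J (L k) - 1`. -/
noncomputable def kap (J L : ℕ → ℕ → A) (n : ℕ) (g : Ult A) : ℕ :=
  sInf {k | n ≤ fv J g (fv L g k) - 1}

theorem meas_kap (J L : ℕ → ℕ → A) (n : ℕ) : Measurable fun g => kap J L n g := by
  refine meas_sInf fun k => ?_
  have h1 : Measurable fun g : Ult A => fv J g (fv L g k) - 1 :=
    meas_fun (fun i => i - 1) (meas_fv' J (meas_fv L k))
  exact h1 (MeasurableSet.of_discrete (s := {i | n ≤ i}))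

/-- Names of functions from measurable functions. -/
theorem exists_fn (V : ℕ → Ult A → ℕ) (hV : ∀ n, Measurable (V n)) :
    ∃ x : ℕ → ℕ → A, IsFN x ∧ ∀ᶠ g in ae A, ∀ n, fv x g n = V n g := by
  obtain ⟨x, hx⟩ := exists_fname (A := A) (F := V) fun j k => hV j (MeasurableSet.of_discrete (s := {k}))
  refine ⟨x, ?_, ?_⟩
  · filter_upwards [hx] with g hg n
    exact ⟨V n g, (hg _ _).2 rfl, fun k hk => ((hg _ _).1 hk).symm⟩
  · filter_upwards [hx] with g hg n
    have : {k | x n k ∈ g} = {V n g} := by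
      ext k
      rw [Set.mem_ofPred_eq, hg, Set.mem_singleton_iff]
      exact eq_comm
    unfold fv
    rw [this, csInf_singleton]

end

/-! ### Closure of `N` -/

theorem club_pair (T T' : Type u) : ∀ᶠ N in club, ∀ (t : T) (t' : T'), In N t → In N t' →
    In N (t, t') :=
  all_club.2.2.2.2.2.2.1 T T' (T × T') fun t t' => (t, t')

theorem club_fun (T T' : Type u) (f : T → T') : ∀ᶠ N in club, ∀ t : T, In N t → In N (f t) :=
  all_club.2.2.2.2.2.1 T T' f

theorem club_fun6 (T1 T2 T3 T4 T5 T6 T : Type u) (f : T1 → T2 → T3 → T4 → T5 → T6 → T) :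
    ∀ᶠ N in club, ∀ t1 t2 t3 t4 t5 t6, In N t1 → In N t2 → In N t3 → In N t4 → In N t5 → In N t6 →
      In N (f t1 t2 t3 t4 t5 t6) := by
  filter_upwards [club_pair T5 T6, club_pair T4 (T5 × T6), club_pair T3 (T4 × T5 × T6),
    club_pair T2 (T3 × T4 × T5 × T6), club_pair T1 (T2 × T3 × T4 × T5 × T6),
    club_fun (T1 × T2 × T3 × T4 × T5 × T6) T
      fun t => f t.1 t.2.1 t.2.2.1 t.2.2.2.1 t.2.2.2.2.1 t.2.2.2.2.2] with
    N h1 h2 h3 h4 h5 h6 t1 t2 t3 t4 t5 t6 i1 i2 i3 i4 i5 i6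
  exact h6 _ (h5 _ _ i1 (h4 _ _ i2 (h3 _ _ i3 (h2 _ _ i4 (h1 _ _ i5 i6)))))

theorem club_fun7 (T1 T2 T3 T4 T5 T6 T7 T : Type u)
    (f : T1 → T2 → T3 → T4 → T5 → T6 → T7 → T) :
    ∀ᶠ N in club, ∀ t1 t2 t3 t4 t5 t6 t7, In N t1 → In N t2 → In N t3 → In N t4 → In N t5 →
      In N t6 → In N t7 → In N (f t1 t2 t3 t4 t5 t6 t7) := by
  filter_upwards [club_pair T6 T7, club_fun6 T1 T2 T3 T4 T5 (T6 × T7) T
      fun t1 t2 t3 t4 t5 t => f t1 t2 t3 t4 t5 t.1 t.2] with
    N h1 h2 t1 t2 t3 t4 t5 t6 t7 i1 i2 i3 i4 i5 i6 i7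
  exact h2 t1 t2 t3 t4 t5 (t6, t7) i1 i2 i3 i4 i5 (h1 _ _ i6 i7)

theorem club_countable (T : Type u) : ∀ᶠ N in club.{u}, Countable {t : T // In N t} := by
  filter_upwards [all_club.{u}.2.1] with N hN
  have h1 : Function.Injective (fun t : {t : T // In N t} => (⟨⟨T, t.1⟩, t.2⟩ : N)) := by
    intro a b h
    have h2 := congrArg Subtype.val h
    simp only [Sigma.mk.injEq, heq_eq_eq, true_and] at h2
    exact Subtype.ext h2
  have := hN.to_subtype
  exact h1.countable

/-- a.e. statements for all elements of `N`. -/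
theorem ae_all_in {A : Type u} [CompleteBooleanAlgebra A] {T : Type u} {N : Set El.{u}}
    (hN : Countable {t : T // In N t}) {P : T → Ult A → Prop}
    (h : ∀ t, In N t → ∀ᶠ g in ae A, P t g) : ∀ᶠ g in ae A, ∀ t, In N t → P t g := by
  have h1 : ∀ᶠ g in ae A, ∀ t : {t : T // In N t}, P t.1 g := ae_all fun t => h t.1 t.2
  filter_upwards [h1] with g hg t ht
  exact hg ⟨t, ht⟩

/-! ### The argument -/

section

variable {A : Type u} [CompleteBooleanAlgebra A]

theorem core {J L : ℕ → ℕ} (hJ : Monotone J) (hJ' : ∀ m, ∃ k, m ≤ J k) (hL : ∀ k, k ≤ L k)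
    {xx : ℕ → ℕ} (hx : Monotone xx) {h : ℕ → ℕ} {m : ℕ}
    (hm : ∀ k, m ≤ k → xx (J (L k) - 1) ≤ h k) :
    ∃ n₀, ∀ n, n₀ ≤ n → xx n ≤ h (sInf {k | n ≤ J (L k) - 1}) := by
  refine ⟨(Finset.range (m + 1)).sup (fun k => J (L k)) + 1, fun n hn => ?_⟩
  have hne : {k | n ≤ J (L k) - 1}.Nonempty := by
    obtain ⟨K, hK⟩ := hJ' (n + 1)
    have := hJ (hL K)
    exact ⟨K, by simp only [Set.mem_ofPred_eq]; omega⟩
  have h1 : n ≤ J (L (sInf {k | n ≤ J (L k) - 1})) - 1 := Nat.sInf_mem hne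
  set κ := sInf {k | n ≤ J (L k) - 1} with hκ
  have h2 : m ≤ κ := by
    by_contra hcon
    push Not at hcon
    have h3 : J (L κ) ≤ (Finset.range (m + 1)).sup (fun k => J (L k)) :=
      Finset.le_sup (f := fun k => J (L k)) (Finset.mem_range.2 (by omega))
    omega
  exact (hx h1).trans (hm κ h2)

end

theorem ub2 : Ub2Statement.{u} := by
  intro A _
  classical
  let X := ℕ → ℕ → A
  have hex : ∀ (s : Sw.{u}) (J F L Q H : X), ∃ x : X, IsFN x ∧ ∀ᶠ g in ae A, ∀ n, fv x g n =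
      fv H g (Nat.pair (kap J L n g) (om2 s.S (fv F g) (fv Q g (kap J L n g)))) := by
    intro s J F L Q H
    refine exists_fn _ fun n => ?_
    have h1 := meas_kap J L n
    refine meas_fv' H (meas_fun2 Nat.pair h1 ?_)
    exact meas_mx F (meas_fun (fun q => nx s.S q + 2) (meas_fv' Q h1))
  choose f hf1 hf2 using hex
  filter_upwards [club_fun6 Sw.{u} X X X X X X f, club_countable X] with
    N hN hNc s J F hs hJ hF hJf hFf hJ2
  have hall : ∀ᶠ g in ae A, ∀ L, In N L → ∀ Q, In N Q → ∀ H, In N H → (∀ n, fv (f s J F L Q H) g n =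
      fv H g (Nat.pair (kap J L n g) (om2 s.S (fv F g) (fv Q g (kap J L n g))))) :=
    ae_all_in hNc fun L _ => ae_all_in hNc fun Q _ => ae_all_in hNc fun H _ => hf2 s J F L Q H
  have hL2 : ∀ᶠ g in ae A, ∀ L, In N L → (∀ᶠ g' in ae A, ∀ k, k ≤ fv L g' k) →
      ∀ k, k ≤ fv L g k := by
    refine ae_all_in hNc fun L _ => ?_
    by_cases hL : ∀ᶠ g' in ae A, ∀ k, k ≤ fv L g' k
    · filter_upwards [hL] with g hg _
      exact hg
    · exact Filter.Eventually.of_forall fun g h => absurd h hL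
  filter_upwards [hall, hL2, hJ2] with g h1 h2 h3 xx hxx hunb L Q H hL hQ hH _ _ _ hLk m
  by_contra hcon
  push Not at hcon
  obtain ⟨n₀, hn₀⟩ := core h3.1 h3.2 (h2 L hL hLk) hxx hcon
  obtain ⟨n, hn, hlt⟩ := hunb (f s J F L Q H) (hN _ _ _ _ _ _ hs hJ hF hL hQ hH)
    (hf1 s J F L Q H) n₀
  have h4 := hn₀ n hn
  rw [h1 L hL Q hQ H hH n] at hlt
  exact absurd hlt (not_lt.2 h4)

theorem ub1 : Ub1Statement.{u} := by
  intro A _
  classical
  let X := ℕ → ℕ → A
  have hex : ∀ (s : Sw.{u}) (J F Be L Q H : X), ∃ x : X, IsFN x ∧ ∀ᶠ g in ae A, ∀ p, fv x g p =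
      fv H g (Nat.pair (kap J L p.unpair.1 g) (mx (fv F g)
        (max (fv Be g (Nat.pair (nx s.S (fv Q g (kap J L p.unpair.1 g))) p.unpair.2))
          (nx s.S (fv Q g (kap J L p.unpair.1 g)))))) := by
    intro s J F Be L Q H
    refine exists_fn _ fun p => ?_
    have h1 := meas_kap J L p.unpair.1
    have h2 : Measurable fun g => nx s.S (fv Q g (kap J L p.unpair.1 g)) :=
      meas_fun (fun q => nx s.S q) (meas_fv' Q h1)
    refine meas_fv' H (meas_fun2 Nat.pair h1 (meas_mx F (meas_fun2 max ?_ h2)))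
    exact meas_fv' Be (meas_fun2 Nat.pair h2 measurable_const)
  choose f hf1 hf2 using hex
  have hex' : ∀ (s : Sw.{u}) (J F Be L Q : X), ∃ x : X, IsFN x ∧ ∀ᶠ g in ae A, ∀ n, fv x g n =
      nx s.S (fv Q g (kap J L n g)) + 2 := by
    intro s J F Be L Q
    refine exists_fn _ fun n => ?_
    exact meas_fun (fun q => nx s.S q + 2) (meas_fv' Q (meas_kap J L n))
  choose f' hf1' hf2' using hex'
  filter_upwards [club_fun7 Sw.{u} X X X X X X X f, club_fun6 Sw.{u} X X X X X X f',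
    club_countable X] with N hN hN' hNc s J F Be hs hJ hF hBe hJf hFf hBef hJ2
  have hall : ∀ᶠ g in ae A, ∀ L, In N L → ∀ Q, In N Q → ∀ H, In N H →
      ((∀ p, fv (f s J F Be L Q H) g p =
      fv H g (Nat.pair (kap J L p.unpair.1 g) (mx (fv F g)
        (max (fv Be g (Nat.pair (nx s.S (fv Q g (kap J L p.unpair.1 g))) p.unpair.2))
          (nx s.S (fv Q g (kap J L p.unpair.1 g))))))) ∧
      ∀ n, fv (f' s J F Be L Q) g n = nx s.S (fv Q g (kap J L n g)) + 2) :=
    ae_all_in hNc fun L _ => ae_all_in hNc fun Q _ => ae_all_in hNc fun H _ =>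
      (hf2 s J F Be L Q H).and (hf2' s J F Be L Q)
  have hL2 : ∀ᶠ g in ae A, ∀ L, In N L → (∀ᶠ g' in ae A, ∀ k, k ≤ fv L g' k) →
      ∀ k, k ≤ fv L g k := by
    refine ae_all_in hNc fun L _ => ?_
    by_cases hL : ∀ᶠ g' in ae A, ∀ k, k ≤ fv L g' k
    · filter_upwards [hL] with g hg _
      exact hg
    · exact Filter.Eventually.of_forall fun g h => absurd h hL
  filter_upwards [hall, hL2, hJ2] with g h1 h2 h3 xx xi hxx hunb L Q H hL hQ hH _ _ _ hLk m
  by_contra hcon
  push Not at hcon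
  obtain ⟨n₀, hn₀⟩ := core h3.1 h3.2 (h2 L hL hLk) hxx hcon
  obtain ⟨n, hn, hlt⟩ := hunb (f s J F Be L Q H) (f' s J F Be L Q)
    (hN _ _ _ _ _ _ _ hs hJ hF hBe hL hQ hH) (hN' _ _ _ _ _ _ hs hJ hF hBe hL hQ)
    (hf1 s J F Be L Q H) (hf1' s J F Be L Q) n₀
  have h4 := hn₀ n hn
  obtain ⟨h5, h6⟩ := h1 L hL Q hQ H hH
  rw [h6, h5, Nat.unpair_pair] at hlt
  exact absurd hlt (not_lt.2 h4)

end Pool.Agent.Lib.MP_6d445e_gt.H38
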