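import Pool.Agent.Lib.MP_6d445e_gt.H38.Vfd
import Pool.Agent.Lib.MP_c5d73d_lc.F.H36.Reals

/-!
Module VASS: the assembly.
-/

universe u

open Cardinal Filter

namespace Pool.Agent.Lib.MP_6d445e_gt.H38

open Pool.Agent.Lib.MP_6d445e_gt
open Pool.Agent.Lib.MP_100a6c_lc
open Pool.Agent.Lib.MP_c5d73d_lc.F (isOm isInter)
open BName
open Pool.Agent.Lib.MP_100a6c_lc.H36 (om nn)

section

variable {B : Type u} [CompleteBooleanAlgebra B]

theorem extw_isSC (t : BName B) : Ext (fun w => isSC (VB B) w t) :=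
  Ext.iSup fun b => ((Ext.const _).inf (ext_leCard_right b)).inf (Ext.const _)

theorem extw_isTG (G m e t : BName B) : Ext (fun w => isTG (VB B) w G m e t) :=
  (Ext.const _).inf (extw_isSC t)

theorem extw_isSeq (f : BName B) : Ext (fun w => isSeq (VB B) w f) :=
  (Ext.iInf fun n => (ext_mem_right n).himp (Ext.const _)).inf (Ext.const _)

theorem extw_fsub (F G : BName B) : Ext (fun w => fsub (VB B) w F G) :=
  (Ext.const _).inf (Ext.iSup fun n => (ext_mem_right n).inf (Ext.const _))

theorem extw_isFSeq (G g : BName B) : Ext (fun w => isFSeq (VB B) w G g) :=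
  (extw_isSeq g).inf (Ext.iInf fun n => Ext.iInf fun F =>
    ((ext_mem_right n).inf (Ext.const _)).himp (extw_fsub F G))

theorem extw_MB (G m e t : BName B) : Ext (fun w => MB (VB B) w G m e t) :=
  Ext.iInf fun f => ((extw_isSeq f).inf (Ext.iInf fun n => Ext.iInf fun A =>
    ((ext_mem_right n).inf (Ext.const _)).himp (Ext.const _))).himp
    (Ext.iSup fun g => (extw_isFSeq G g).inf (Ext.iInf fun x => (Ext.const _).himp
      (Ext.iSup fun n => Ext.iSup fun A => Ext.iSup fun F =>
        (((ext_mem_right n).inf (Ext.const _)).inf (Ext.const _)).inf (Ext.const _))))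

theorem extw_SB (G m e t : BName B) : Ext (fun w => SB (VB B) w G m e t) :=
  Ext.iInf fun f => ((extw_isSeq f).inf (Ext.iInf fun n => Ext.iInf fun A =>
    ((ext_mem_right n).inf (Ext.const _)).himp ((Ext.const _).inf (Ext.iInf fun F =>
      (extw_fsub F G).himp (Ext.const _))))).himp
    (Ext.iSup fun g => (extw_isFSeq G g).inf (Ext.iInf fun E => (extw_fsub E G).himp
      (Ext.iSup fun n => Ext.iSup fun A => Ext.iSup fun F =>
        (((ext_mem_right n).inf (Ext.const _)).inf (Ext.const _)).inf (Ext.const _))))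

end

theorem vass (hVGR : VgrStatement.{u}) (hVNB : VnbStatement.{u}) (hVDN : VdnStatement.{u})
    (hVBU : VbuStatement.{u}) (hVMB : VmbStatement.{u}) (hVFD : VfdStatement.{u})
    (hGDX : GdxStatement.{u, u + 1}) : VassStatement.{u} := by
  intro B _ hno
  rw [eq_top_iff]
  refine le_iInf fun w => le_iInf fun G => le_iInf fun m => le_iInf fun e => le_iInf fun t => ?_
  rw [le_himp_iff, top_inf_eq, ← compl_compl (SB (VB B) w G m e t), compl_le_iff']
  set Γ := isOm (VB B) w ⊓ isTG (VB B) w G m e t ⊓ MB (VB B) w G m e t ⊓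
    (SB (VB B) w G m e t)ᶜ with hΓ
  have hw : Γ ≤ beq w (check om) := by
    rw [← Pool.Agent.Lib.MP_c5d73d_lc.F.H36.isOm_eq]
    exact inf_le_left.trans (inf_le_left.trans inf_le_left)
  have hTG : Γ ≤ isTG (VB B) (check om) G m e t :=
    (extw_isTG G m e t).of_le hw (inf_le_left.trans (inf_le_left.trans inf_le_right))
  have hMB : Γ ≤ MB (VB B) (check om) G m e t :=
    (extw_MB G m e t).of_le hw (inf_le_left.trans inf_le_right)
  have hSB : Γ ≤ (SB (VB B) (check om) G m e t)ᶜ :=
    (extw_SB G m e t).compl.of_le hw inf_le_right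
  have hV : VHyp Γ G m e t :=
    { grp := hTG.trans (inf_le_left.trans (inf_le_left.trans (inf_le_left.trans
        (inf_le_left.trans inf_le_left))))
      top := hTG.trans (inf_le_left.trans (inf_le_left.trans (inf_le_left.trans
        (inf_le_left.trans inf_le_right))))
      cm := hTG.trans (inf_le_left.trans (inf_le_left.trans (inf_le_left.trans inf_le_right)))
      ci := hTG.trans (inf_le_left.trans (inf_le_left.trans inf_le_right))
      sc := hTG.trans inf_le_right }
  obtain ⟨D, hD⟩ := hVGR B Γ G m e hV.grp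
  obtain ⟨V, hV1, hV2, hV3⟩ := hVFD B Γ G m e t D hV hD hSB
  obtain ⟨U, hU1, hU2, hU3, hU4⟩ := hVNB B Γ G m e t D hV hD V hV1
  obtain ⟨d, hd⟩ := hVDN B Γ G m e t hV
  have hU5 : ∀ n, Γ ≤ (beq (U n) G)ᶜ := by
    intro n
    rw [compl_le_iff']
    have h1 : Γ ⊓ beq (U n) G ≤ beq (V n) G := by
      refine le_trans (le_inf ?_ ?_) (sub_inf_sub_le (V n) G)
      · exact (le_inf inf_le_left (inf_le_left.trans ((hV1 n).trans inf_le_left))).trans
          (sub_of_mem hV.top (V n))
      · refine le_iInf fun z => ?_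
        rw [le_himp_iff]
        refine sub_apply (hU2 n) z (inf_le_left.trans inf_le_left) ?_
        exact (ext_mem_right z).of_le' (x := G) (inf_le_left.trans inf_le_right) inf_le_right
    exact (le_inf inf_le_left h1).trans (compl_le_iff'.1 (hV2 n))
  have hBGU : BGU Γ D (fun n x => bmem x.1 (U n)) d :=
    hVBU B Γ G m e t D hV hD U d hU1 hU3 hU4 hd
  have hBMB : BMB Γ D (fun n x => bmem x.1 (U n)) d :=
    hVMB B Γ G m e t D hV hD hMB U d hU1 hU5 hBGU
  have hBFD : BFD Γ D (fun n x => bmem x.1 (U n)) d := hV3 U d hU2 hBGU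
  obtain ⟨D', hD'⟩ := hGDX B (Lm Γ G) Γ D (fun n x => bmem x.1 (U n)) d hD.gr hBGU hBMB hBFD
  exact (hno (Lm Γ G) Γ D' hD').le

end Pool.Agent.Lib.MP_6d445e_gt.H38
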