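import Pool.Agent.Lib.MP_6d445e_gt.V.Iface3

/-!
Module VDN: a dense sequence.
-/

universe u

open Cardinal

namespace Pool.Agent.Lib.MP_6d445e_gt.H38

open Pool.Agent.Lib.MP_6d445e_gt
open Pool.Agent.Lib.MP_100a6c_lc
open Pool.Agent.Lib.MP_c5d73d_lc.F (isOm isInter)
open BName
open Pool.Agent.Lib.MP_100a6c_lc.H36 (om nn)

section

variable {B : Type u} [CompleteBooleanAlgebra B]

theorem op_eq (m x y z : BName B) : op (VB B) m x y z = bmem (opr (opr x y) z) m := by
  unfold op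
  simp only [isPair_eq, rel_eq]
  refine le_antisymm (iSup_le fun p => ?_) ?_
  · exact (ext_opr_left z (ext_mem_left m)).of_le (x := p) inf_le_left inf_le_right
  · refine le_iSup_of_le (opr x y) ?_
    rw [beq_refl, top_inf_eq]

theorem ext_op1 (m y z : BName B) : Ext (fun x => op (VB B) m x y z) := by
  simp only [op_eq]
  exact ext_opr_left (φ := fun p => bmem (opr p z) m) y (ext_opr_left z (ext_mem_left m))

theorem ext_op2 (m x z : BName B) : Ext (fun y => op (VB B) m x y z) := by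
  simp only [op_eq]
  exact ext_opr_right (φ := fun p => bmem (opr p z) m) x (ext_opr_left z (ext_mem_left m))

theorem ext_op3 (m x y : BName B) : Ext (fun z => op (VB B) m x y z) := by
  simp only [op_eq]
  exact ext_opr_right (φ := fun p => bmem p m) (opr x y) (ext_mem_left m)

theorem enum_nat {Γ : B} {x : BName B} (h : Γ ≤ (VB B).leCard x (check om)) :
    ∃ t : ℕ → BName B, ∀ z, Γ ⊓ bmem z x ≤ ⨆ k, beq z (t k) := by
  obtain ⟨t, ht⟩ := exists_enum_of_le_leCard (Ordinal.omega0.{u}) h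
  have h1 : #(Ordinal.omega0.{u}.ToType) = ℵ₀ := by
    rw [← Cardinal.ord_aleph0, mk_ord_toType]
  have h2 : Countable Ordinal.omega0.{u}.ToType := by
    rw [← Cardinal.mk_le_aleph0_iff, h1]
  have h3 : Nonempty Ordinal.omega0.{u}.ToType := by
    rw [← Cardinal.mk_ne_zero_iff, h1]
    exact aleph0_ne_zero
  obtain ⟨e, he⟩ := exists_surjective_nat (Ordinal.omega0.{u}.ToType)
  refine ⟨fun k => t (e k), fun z => (ht z).trans (iSup_le fun y => ?_)⟩
  obtain ⟨k, rfl⟩ := he y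
  exact le_iSup (fun k => beq z (t (e k))) k

theorem one_mem {Γ : B} {G m e : BName B} (h : Γ ≤ isGrp (VB B) G m e) : Γ ≤ bmem e G :=
  h.trans (inf_le_left.trans (inf_le_left.trans inf_le_right))

theorem sub_of_mem {Γ : B} {G t : BName B} (h : Γ ≤ isTopo (VB B) G t) (A : BName B) :
    Γ ⊓ bmem A t ≤ (VB B).sub A G := by
  have h1 : Γ ≤ ⨅ A, (VB B).mem A t ⇨ (VB B).sub A G :=
    h.trans (inf_le_left.trans (inf_le_left.trans inf_le_left))
  exact iInf_himp_apply h1 A inf_le_left inf_le_right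

end

theorem vdn : VdnStatement.{u} := by
  intro B _ Γ G m e t hV
  have heG : Γ ≤ bmem e G := one_mem hV.grp
  have hext : Ext (fun b : BName B => (VB B).sub b t ⊓ (VB B).leCard b (check om) ⊓
      ⨅ A, ⨅ x, (VB B).mem A t ⊓ (VB B).mem x A ⇨ ⨆ C, (VB B).mem C b ⊓ (VB B).mem x C ⊓
        (VB B).sub C A) :=
    ((ext_sub_left t).inf (ext_leCard_left _)).inf (Ext.iInf fun A => Ext.iInf fun x =>
      (Ext.const _).himp (Ext.iSup fun C => ((ext_mem_right C).inf (Ext.const _)).inf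
        (Ext.const _)))
  obtain ⟨b, hb⟩ := exists_wit hext hV.sc
  have hb1 : Γ ≤ (VB B).sub b t := hb.trans (inf_le_left.trans inf_le_left)
  have hb2 : Γ ≤ (VB B).leCard b (check om) := hb.trans (inf_le_left.trans inf_le_right)
  have hb3 := hb.trans inf_le_right
  obtain ⟨C, hC⟩ := enum_nat hb2
  have hsub : ∀ k, Γ ⊓ bmem (C k) b ≤ (VB B).sub (C k) G := fun k =>
    (le_inf inf_le_left (sub_apply hb1 (C k) inf_le_left inf_le_right)).trans
      (sub_of_mem hV.top (C k))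
  have hd : ∀ k, ∃ τ, Γ ≤ bmem τ G ⊓ ((bmem (C k) b ⊓ ⨆ x, bmem x (C k)) ⇨ bmem τ (C k)) := by
    intro k
    refine exists_wit (φ := fun τ => bmem τ G ⊓
      ((bmem (C k) b ⊓ ⨆ x, bmem x (C k)) ⇨ bmem τ (C k)))
      ((ext_mem_left G).inf ((Ext.const _).himp (ext_mem_left _))) ?_
    have h1 : Γ ≤ (Γ ⊓ (bmem (C k) b ⊓ ⨆ x, bmem x (C k))) ⊔
        (Γ ⊓ (bmem (C k) b ⊓ ⨆ x, bmem x (C k))ᶜ) := by
      rw [← inf_sup_left, sup_compl_eq_top, inf_top_eq]
    refine h1.trans (sup_le ?_ ?_)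
    · rw [inf_iSup_eq, inf_iSup_eq]
      refine iSup_mono fun x => le_inf ?_ ?_
      · exact sub_apply (hsub k) x (le_inf inf_le_left (inf_le_right.trans inf_le_left))
          (inf_le_right.trans inf_le_right)
      · rw [le_himp_iff]
        exact inf_le_left.trans (inf_le_right.trans inf_le_right)
    · refine le_iSup_of_le e (le_inf (inf_le_left.trans heG) ?_)
      rw [himp_eq]
      exact inf_le_right.trans le_sup_right
  choose d hdm using hd
  have hd1 : ∀ k, Γ ≤ bmem (d k) G := fun k => (hdm k).trans inf_le_left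
  have hd2 : ∀ k, Γ ⊓ (bmem (C k) b ⊓ ⨆ x, bmem x (C k)) ≤ bmem (d k) (C k) := fun k => by
    rw [← le_himp_iff]
    exact (hdm k).trans inf_le_right
  refine ⟨fun k => ⟨d k, hd1 k⟩, fun A x => ?_⟩
  have h1 : Γ ⊓ bmem A t ⊓ bmem x A ≤ Γ ⊓ ⨆ C, (VB B).mem C b ⊓ (VB B).mem x C ⊓
      (VB B).sub C A := by
    refine le_inf (inf_le_left.trans inf_le_left) ?_
    have h2 : Γ ≤ (VB B).mem A t ⊓ (VB B).mem x A ⇨ ⨆ C, (VB B).mem C b ⊓ (VB B).mem x C ⊓
      (VB B).sub C A := hb3.trans ((iInf_le _ A).trans (iInf_le _ x))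
    rw [le_himp_iff] at h2
    rw [inf_assoc]
    exact h2
  refine h1.trans ?_
  rw [inf_iSup_eq]
  refine iSup_le fun C' => ?_
  have h3 : Γ ⊓ ((VB B).mem C' b ⊓ (VB B).mem x C' ⊓ (VB B).sub C' A) ≤
      Γ ⊓ ((VB B).mem C' b ⊓ (VB B).mem x C' ⊓ (VB B).sub C' A) ⊓ ⨆ k, beq C' (C k) :=
    le_inf le_rfl ((inf_le_inf_left _ (inf_le_left.trans inf_le_left)).trans (hC C'))
  refine h3.trans ?_
  rw [inf_iSup_eq]
  refine iSup_mono fun k => ?_
  set Δ := Γ ⊓ ((VB B).mem C' b ⊓ (VB B).mem x C' ⊓ (VB B).sub C' A) ⊓ beq C' (C k) with hΔ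
  have e0 : Δ ≤ Γ := inf_le_left.trans inf_le_left
  have e1 : Δ ≤ bmem (C k) b := (ext_mem_left b).of_le (x := C') inf_le_right
    (inf_le_left.trans (inf_le_right.trans (inf_le_left.trans inf_le_left)))
  have e2 : Δ ≤ bmem x (C k) := (ext_mem_right x).of_le (x := C') inf_le_right
    (inf_le_left.trans (inf_le_right.trans (inf_le_left.trans inf_le_right)))
  have e3 : Δ ≤ (VB B).sub (C k) A := (ext_sub_left A).of_le (x := C') inf_le_right
    (inf_le_left.trans (inf_le_right.trans inf_le_right))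
  have e4 : Δ ≤ bmem (d k) (C k) :=
    (le_inf e0 (le_inf e1 (e2.trans (le_iSup (fun x => bmem x (C k)) x)))).trans (hd2 k)
  exact sub_apply e3 (d k) le_rfl e4

end Pool.Agent.Lib.MP_6d445e_gt.H38
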