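import Pool.Agent.Lib.MP_6d445e_gt.H38.Vdn

/-!
Module VFD: the group is not Scheepers-bounded.
-/

universe u

open Cardinal Filter

namespace Pool.Agent.Lib.MP_6d445e_gt.H38

open Pool.Agent.Lib.MP_6d445e_gt
open Pool.Agent.Lib.MP_100a6c_lc
open Pool.Agent.Lib.MP_c5d73d_lc.F (isOm isInter)
open BName
open Pool.Agent.Lib.MP_100a6c_lc.H36 (om nn)

section

variable {B : Type u} [CompleteBooleanAlgebra B]

theorem compl_le_iff' {a b : B} : a ≤ bᶜ ↔ a ⊓ b ≤ ⊥ := by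
  rw [← himp_bot, le_himp_iff]

theorem ext_isFin (w : BName B) : Ext (fun F => isFin (VB B) w F) :=
  Ext.iSup fun n => (Ext.const _).inf (ext_leCard_left n)

theorem ext_fsub1 (w G : BName B) : Ext (fun F => fsub (VB B) w F G) :=
  (ext_sub_left G).inf (ext_isFin w)

theorem ext_tr2 (m A x : BName B) : Ext (fun F => tr (VB B) m F A x) :=
  Ext.iSup fun y => Ext.iSup fun u => ((ext_mem_right y).inf (Ext.const _)).inf (Ext.const _)

theorem ext_tr3 (m F x : BName B) : Ext (fun A => tr (VB B) m F A x) :=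
  Ext.iSup fun y => Ext.iSup fun u => ((Ext.const _).inf (ext_mem_right u)).inf (Ext.const _)

theorem ext_tr4 (m F A : BName B) : Ext (fun x => tr (VB B) m F A x) :=
  Ext.iSup fun y => Ext.iSup fun u => (Ext.const _).inf (ext_op3 m y u)

theorem ext_isNb (t e : BName B) : Ext (fun A => isNb (VB B) t e A) :=
  (ext_mem_left t).inf (ext_mem_right e)

theorem ext_isSeq (w : BName B) : Ext (fun f => isSeq (VB B) w f) :=
  (Ext.iInf fun n => (Ext.const _).himp (Ext.iSup fun A => ext_rel_fst n A)).inf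
    (Ext.iInf fun n => Ext.iInf fun A => Ext.iInf fun A' =>
      ((ext_rel_fst n A).inf (ext_rel_fst n A')).himp (Ext.const _))

/-- The sequence of the names `A n`. -/
noncomputable def sq (A : ℕ → BName B) : BName B :=
  relFam (ι := ULift.{u} ℕ) (fun n => check (nn n.down)) (fun n => A n.down) fun _ => ⊤

theorem rel_sq (A : ℕ → BName B) (a b : BName B) :
    (VB B).rel (sq A) a b = ⨆ n : ℕ, beq a (check (nn n)) ⊓ beq b (A n) := by
  rw [sq, rel_relFam]
  refine le_antisymm (iSup_le fun n => ?_) (iSup_le fun n => ?_)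
  · exact le_iSup_of_le n.down inf_le_right
  · exact le_iSup_of_le ⟨n⟩ (le_inf le_top le_rfl)

theorem rel_sq_self (A : ℕ → BName B) (n : ℕ) : (VB B).rel (sq A) (check (nn n)) (A n) = ⊤ := by
  rw [rel_sq, eq_top_iff]
  refine le_iSup_of_le n ?_
  rw [beq_refl, beq_refl, inf_top_eq]

theorem isSeq_sq (A : ℕ → BName B) : isSeq (VB B) (check om) (sq A) = ⊤ := by
  rw [eq_top_iff]
  refine le_inf (le_iInf fun n => ?_) (le_iInf fun n => le_iInf fun a => le_iInf fun a' => ?_)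
  · rw [le_himp_iff, top_inf_eq, VB_mem, H36.mem_check_om]
    refine iSup_le fun k => le_iSup_of_le (A k) ?_
    rw [rel_sq]
    refine le_iSup_of_le k (le_inf le_rfl ?_)
    rw [beq_refl]; exact le_top
  · rw [le_himp_iff, top_inf_eq, rel_sq, rel_sq, iSup_inf_iSup]
    refine iSup_le fun ⟨i, j⟩ => ?_
    change beq n (check (nn i)) ⊓ beq a (A i) ⊓ (beq n (check (nn j)) ⊓ beq a' (A j)) ≤ beq a a'
    by_cases hij : i = j
    · subst hij
      exact (ext_eq_right a).of_le' (x := A i) (inf_le_right.trans inf_le_right)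
        (inf_le_left.trans inf_le_right)
    · refine le_trans ?_ bot_le
      rw [← beq_check_of_ne (B := B) (x := nn i) (y := nn j) fun h => hij (H36.nn_inj h)]
      exact (ext_eq_left (check (nn j))).of_le (x := n) (inf_le_left.trans inf_le_left)
        (inf_le_right.trans inf_le_left)

theorem isFSeq_sq {Γ : B} {G : BName B} {A : ℕ → BName B}
    (h : ∀ n, Γ ≤ fsub (VB B) (check om) (A n) G) :
    Γ ≤ isFSeq (VB B) (check om) G (sq A) := by
  refine le_inf ?_ (le_iInf fun n => le_iInf fun F => ?_)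
  · rw [isSeq_sq]; exact le_top
  · rw [le_himp_iff, rel_sq]
    have h1 : Γ ⊓ ((VB B).mem n (check om) ⊓ ⨆ n', beq n (check (nn n')) ⊓ beq F (A n')) ≤
        Γ ⊓ ⨆ n', beq n (check (nn n')) ⊓ beq F (A n') := inf_le_inf_left _ inf_le_right
    refine h1.trans ?_
    rw [inf_iSup_eq]
    refine iSup_le fun k => ?_
    exact (ext_fsub1 _ G).of_le' (x := A k) (inf_le_right.trans inf_le_right)
      (inf_le_left.trans (h k))

/-! ## Groups -/

theorem eq_trans {Λ : Type*} {Γ : B} {D : BG B Λ} (hD : BGR Γ D) {x y z : Λ}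
    (h : Γ ≤ D.eq x y) (h' : Γ ≤ D.eq y z) : Γ ≤ D.eq x z :=
  (le_inf (le_inf le_rfl h) h').trans (hD.trans x y z)

theorem eq_symm {Λ : Type*} {Γ : B} {D : BG B Λ} (hD : BGR Γ D) {x y : Λ}
    (h : Γ ≤ D.eq x y) : Γ ≤ D.eq y x :=
  (le_inf le_rfl h).trans (hD.symm x y)

theorem eq_mulc {Λ : Type*} {Γ : B} {D : BG B Λ} (hD : BGR Γ D) {x x' y y' : Λ}
    (h : Γ ≤ D.eq x x') (h' : Γ ≤ D.eq y y') : Γ ≤ D.eq (D.mul x y) (D.mul x' y') :=
  (le_inf (le_inf le_rfl h) h').trans (hD.mulc x x' y y')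

theorem op_of_eq {Γ : B} {G m e : BName B} {D : BG B (Lm Γ G)} (hD : VGr Γ G m e D)
    {x y z : Lm Γ G} (h : Γ ≤ D.eq z (D.mul x y)) : Γ ≤ op (VB B) m x.1 y.1 z.1 := by
  have h1 := hD.mul x y z.1
  rw [hD.eq] at h
  exact (le_inf le_rfl h).trans (h1.ge.trans inf_le_right)

theorem eq_of_op {Γ : B} {G m e : BName B} {D : BG B (Lm Γ G)} (hD : VGr Γ G m e D)
    {x y z : Lm Γ G} (h : Γ ≤ op (VB B) m x.1 y.1 z.1) : Γ ≤ D.eq z (D.mul x y) := by
  have h1 := hD.mul x y z.1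
  rw [hD.eq]
  exact (le_inf le_rfl h).trans (h1.le.trans inf_le_right)

theorem mul_inv {Γ : B} {G m e : BName B} {D : BG B (Lm Γ G)} (hD : VGr Γ G m e D)
    (x : Lm Γ G) : Γ ≤ D.eq D.one (D.mul x (D.inv x)) := by
  refine eq_of_op hD ?_
  rw [hD.one]
  exact hD.inv x

theorem mul_inv_mul {Γ : B} {G m e : BName B} {D : BG B (Lm Γ G)} (hD : VGr Γ G m e D)
    (x y : Lm Γ G) : Γ ≤ D.eq y (D.mul x (D.mul (D.inv x) y)) := by
  have h1 : Γ ≤ D.eq y (D.mul D.one y) := eq_symm hD.gr (hD.gr.one_mul y)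
  have h2 : Γ ≤ D.eq (D.mul D.one y) (D.mul (D.mul x (D.inv x)) y) :=
    eq_mulc hD.gr (mul_inv hD x) (hD.gr.refl y)
  exact eq_trans hD.gr (eq_trans hD.gr h1 h2) (hD.gr.assoc _ _ _)

theorem mem_dset {Γ : B} {G : BName B} (d : ℕ → Lm Γ G) (p : ℕ → B) (z : BName B) :
    bmem z (dset d p) = ⨆ i, p i ⊓ beq z (d i).1 := by
  rw [dset, mem_mk]
  refine le_antisymm (iSup_le fun i => ?_) (iSup_le fun i => ?_)
  · exact le_iSup (fun i => p i ⊓ beq z (d i).1) i.down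
  · exact le_iSup (fun i : ULift.{u} ℕ => p i.down ⊓ beq z (d i.down).1) ⟨i⟩

theorem mem_dset_self {Γ : B} {G : BName B} (d : ℕ → Lm Γ G) (p : ℕ → B) (i : ℕ) :
    p i ≤ bmem (d i).1 (dset d p) := by
  rw [mem_dset]
  refine le_iSup_of_le i (le_inf le_rfl ?_)
  rw [beq_refl]; exact le_top

/-- The value of `i < F n`. -/
def ltF (F : ℕ → ℕ → B) (n i : ℕ) : B := ⨆ k, ⨆ _ : i < k, F n k

theorem ltF_bd {F : ℕ → ℕ → B} (hF : IsFN F) (n : ℕ) :
    (⊤ : B) ≤ ⨆ N : ℕ, ⨅ i : ℕ, ⨅ _ : N ≤ i, (ltF F n i)ᶜ := by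
  refine le_of_ae ?_
  have h1 := ae_iSup (A := B) fun N : ℕ => ⨅ i : ℕ, ⨅ _ : N ≤ i, (ltF F n i)ᶜ
  have h2 : ∀ᶠ g in ae B, ∀ N : ℕ, (⨅ i : ℕ, ⨅ _ : N ≤ i, (ltF F n i)ᶜ) ∈ g ↔
      ∀ i, (⨅ _ : N ≤ i, (ltF F n i)ᶜ) ∈ g := ae_all fun N => ae_iInf _
  have h2' : ∀ᶠ g in ae B, ∀ N i : ℕ, (⨅ _ : N ≤ i, (ltF F n i)ᶜ) ∈ g ↔
      ∀ _ : N ≤ i, (ltF F n i)ᶜ ∈ g := ae_all fun N => ae_all fun i => ae_iInf _
  have h3 : ∀ᶠ g in ae B, ∀ i, ltF F n i ∈ g ↔ ∃ k, (⨆ _ : i < k, F n k) ∈ g :=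
    ae_all fun i => ae_iSup _
  have h4 : ∀ᶠ g in ae B, ∀ i k, (⨆ _ : i < k, F n k) ∈ g ↔ ∃ _ : i < k, F n k ∈ g :=
    ae_all fun i => ae_all fun k => ae_iSup _
  filter_upwards [h1, h2, h2', h3, h4, hF] with g h1 h2 h2' h3 h4 h5 _
  rw [h1]
  obtain ⟨k, hk, hk'⟩ := h5 n
  refine ⟨k, ?_⟩
  rw [h2]
  intro i
  rw [h2']
  intro hi
  rw [g.mem_compl, h3]
  rintro ⟨k', hk1⟩
  rw [h4] at hk1
  obtain ⟨h6, h7⟩ := hk1
  have := hk' k' h7
  omega

theorem fv_mem' {F : ℕ → ℕ → B} {g : Ult B} {n : ℕ} (h : ∃ k, F n k ∈ g) : F n (fv F g n) ∈ g :=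
  Nat.sInf_mem (s := {k | F n k ∈ g}) h

end

theorem vfd (hVFI : VfiStatement.{u}) : VfdStatement.{u} := by
  intro B _ Γ G m e t D hV hD hS
  classical
  obtain ⟨-, hfi2, hfi3⟩ := hVFI B Γ G
  have heG : Γ ≤ bmem e G := one_mem hV.grp
  -- the sequence `f`
  let P : BName B → B := fun f => isSeq (VB B) (check om) f ⊓
    (⨅ n, ⨅ A, (VB B).mem n (check om) ⊓ (VB B).rel f n A ⇨ isNb (VB B) t e A ⊓
      ⨅ F, fsub (VB B) (check om) F G ⇨ ⨆ x, (VB B).mem x G ⊓ (tr (VB B) m F A x)ᶜ)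
  let R : BName B → BName B → BName B → B := fun f g E =>
    ⨆ n, ⨆ A, ⨆ F, (VB B).mem n (check om) ⊓ (VB B).rel f n A ⊓ (VB B).rel g n F ⊓
      ⨅ x, (VB B).mem x E ⇨ tr (VB B) m F A x
  let Q : BName B → B := fun f => ⨆ g, isFSeq (VB B) (check om) G g ⊓
    ⨅ E, fsub (VB B) (check om) E G ⇨ R f g E
  have hS1 : Γ ≤ ⨆ f, P f ⊓ (Q f)ᶜ := by
    have h1 : SB (VB B) (check om) G m e t = ⨅ f, P f ⇨ Q f := rfl
    rw [h1, compl_iInf] at hS
    simpa only [himp_eq, compl_sup, compl_compl, inf_comm] using hS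
  have extP : Ext P := (ext_isSeq _).inf (Ext.iInf fun n => Ext.iInf fun A =>
    ((Ext.const _).inf (ext_rel_fst n A)).himp (Ext.const _))
  have extR1 : ∀ g E, Ext (fun f => R f g E) := fun g E => Ext.iSup fun n => Ext.iSup fun A =>
    Ext.iSup fun F => (((Ext.const _).inf (ext_rel_fst n A)).inf (Ext.const _)).inf (Ext.const _)
  have extQ : Ext Q := Ext.iSup fun g => (Ext.const _).inf (Ext.iInf fun E =>
    (Ext.const _).himp (extR1 g E))
  obtain ⟨f, hf⟩ := exists_wit (extP.inf extQ.compl) hS1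
  have hf1 : Γ ≤ isSeq (VB B) (check om) f := hf.trans (inf_le_left.trans inf_le_left)
  have hf2 : Γ ≤ ⨅ n, ⨅ A, (VB B).mem n (check om) ⊓ (VB B).rel f n A ⇨ isNb (VB B) t e A ⊓
      ⨅ F, fsub (VB B) (check om) F G ⇨ ⨆ x, (VB B).mem x G ⊓ (tr (VB B) m F A x)ᶜ :=
    hf.trans (inf_le_left.trans inf_le_right)
  have hf3 : Γ ≤ (Q f)ᶜ := hf.trans inf_le_right
  have hno : ∀ n, Γ ≤ (VB B).mem (check (nn n)) (check om) := fun n => by
    rw [VB_mem, mem_check_of_mem (H36.nn_mem_om n)]; exact le_top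
  have hVex : ∀ n, ∃ A, Γ ≤ (VB B).rel f (check (nn n)) A := fun n => by
    refine exists_wit (ext_rel_trd f _) ?_
    exact iInf_himp_apply (hf1.trans inf_le_left) (check (nn n)) le_rfl (hno n)
  choose V hVr using hVex
  have hV2 : ∀ n, Γ ≤ isNb (VB B) t e (V n) ⊓
      ⨅ F, fsub (VB B) (check om) F G ⇨ ⨆ x, (VB B).mem x G ⊓ (tr (VB B) m F (V n) x)ᶜ := by
    intro n
    have h1 : Γ ≤ (VB B).mem (check (nn n)) (check om) ⊓ (VB B).rel f (check (nn n)) (V n) ⇨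
        isNb (VB B) t e (V n) ⊓
      ⨅ F, fsub (VB B) (check om) F G ⇨ ⨆ x, (VB B).mem x G ⊓ (tr (VB B) m F (V n) x)ᶜ :=
      hf2.trans ((iInf_le _ (check (nn n))).trans (iInf_le _ (V n)))
    rw [le_himp_iff] at h1
    exact (le_inf le_rfl (le_inf (hno n) (hVr n))).trans h1
  refine ⟨V, fun n => (hV2 n).trans inf_le_left, fun n => ?_, ?_⟩
  · -- `V n ≠ G`
    rw [compl_le_iff']
    let p : ℕ → B := fun i => if i = 0 then ⊤ else ⊥
    let d₀ : ℕ → Lm Γ G := fun _ => ⟨e, heG⟩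
    have h1 : Γ ≤ fsub (VB B) (check om) (dset d₀ p) G := by
      refine hfi3 d₀ p (le_iSup_of_le 1 (le_iInf fun i => le_iInf fun hi => ?_))
      have : i ≠ 0 := by omega
      simp [p, this]
    have h2 : Γ ≤ ⨆ x, (VB B).mem x G ⊓ (tr (VB B) m (dset d₀ p) (V n) x)ᶜ :=
      iInf_himp_apply ((hV2 n).trans inf_le_right) (dset d₀ p) le_rfl h1
    refine (le_inf le_rfl (inf_le_left.trans h2)).trans ?_
    rw [inf_iSup_eq]
    refine iSup_le fun x => ?_
    rw [← inf_assoc]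
    rw [← compl_le_iff', compl_compl]
    have h3 : Γ ⊓ beq (V n) G ⊓ (VB B).mem x G ≤ bmem x (V n) :=
      (ext_mem_right x).of_le' (x := G) (inf_le_left.trans inf_le_right) inf_le_right
    have h4 : Γ ⊓ (VB B).mem x G ≤ op (VB B) m e x x := by
      have h5 : Γ ≤ ⨅ x, (VB B).mem x G ⇨ op (VB B) m e x x ⊓ op (VB B) m x e x :=
        hV.grp.trans (inf_le_left.trans inf_le_right)
      exact (iInf_himp_apply h5 x inf_le_left inf_le_right).trans inf_le_left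
    refine le_iSup_of_le e (le_iSup_of_le x (le_inf (le_inf ?_ h3) ?_))
    · have h6 := mem_dset_self d₀ p 0
      refine le_trans ?_ h6
      simp [p]
    · exact (le_inf (inf_le_left.trans inf_le_left) inf_le_right).trans h4
  · intro U d hUV hU F hF a ha haΓ
    let g : BName B := sq fun n => dset d (ltF F n)
    have hfs : ∀ n, Γ ≤ fsub (VB B) (check om) (dset d (ltF F n)) G := fun n =>
      hfi3 d (ltF F n) (le_top.trans (ltF_bd hF n))
    have hg : Γ ≤ isFSeq (VB B) (check om) G g := isFSeq_sq hfs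
    have hE0 : Γ ≤ ⨆ E, fsub (VB B) (check om) E G ⊓ (R f g E)ᶜ := by
      have h1 : Γ ⊓ (isFSeq (VB B) (check om) G g ⊓
          ⨅ E, fsub (VB B) (check om) E G ⇨ R f g E) ≤ ⊥ := by
        rw [← compl_le_iff']
        refine hf3.trans (compl_le_compl ?_)
        exact le_iSup (fun g => isFSeq (VB B) (check om) G g ⊓
          ⨅ E, fsub (VB B) (check om) E G ⇨ R f g E) g
      have h2 : Γ ≤ (⨅ E, fsub (VB B) (check om) E G ⇨ R f g E)ᶜ := by
        rw [compl_le_iff']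
        exact (le_inf inf_le_left (le_inf (inf_le_left.trans hg) inf_le_right)).trans h1
      rw [compl_iInf] at h2
      simpa only [himp_eq, compl_sup, compl_compl, inf_comm] using h2
    have extR3 : Ext (fun E => R f g E) := Ext.iSup fun n => Ext.iSup fun A =>
      Ext.iSup fun F => (Ext.const _).inf (Ext.iInf fun x => (ext_mem_right x).himp (Ext.const _))
    obtain ⟨E, hE⟩ := exists_wit ((ext_fsub1 (check om) G).inf extR3.compl) hE0
    have hE1 : Γ ≤ fsub (VB B) (check om) E G := hE.trans inf_le_left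
    have hE2 : Γ ≤ (R f g E)ᶜ := hE.trans inf_le_right
    obtain ⟨b, hb, hba, E', hE'⟩ := hfi2 E (heG.trans (le_iSup (fun x => bmem x G) e)) hE1 a ha haΓ
    refine ⟨b, hb, hba, E', ?_⟩
    have key : ∀ n, b ≤ ⨆ y ∈ E', (tr (VB B) m (dset d (ltF F n)) (V n) y.1)ᶜ := by
      intro n
      have h1 : Γ ≤ (⨅ x, (VB B).mem x E ⇨ tr (VB B) m (dset d (ltF F n)) (V n) x)ᶜ := by
        rw [compl_le_iff']
        refine le_trans (le_inf inf_le_left ?_) (compl_le_iff'.1 hE2)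
        refine le_iSup_of_le (check (nn n)) (le_iSup_of_le (V n)
          (le_iSup_of_le (dset d (ltF F n)) (le_inf (le_inf (le_inf ?_ ?_) ?_) inf_le_right)))
        · exact inf_le_left.trans (hno n)
        · exact inf_le_left.trans (hVr n)
        · rw [rel_sq_self (fun n => dset d (ltF F n)) n]; exact le_top
      rw [compl_iInf] at h1
      refine (le_inf le_rfl ((hba.trans haΓ).trans h1)).trans ?_
      rw [inf_iSup_eq]
      refine iSup_le fun x => ?_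
      rw [himp_eq, compl_sup, compl_compl]
      have h2 : b ⊓ ((tr (VB B) m (dset d (ltF F n)) (V n) x)ᶜ ⊓ (VB B).mem x E) ≤
          (⨆ y ∈ E', beq x y.1) ⊓ (tr (VB B) m (dset d (ltF F n)) (V n) x)ᶜ :=
        le_inf ((le_inf inf_le_left (inf_le_right.trans inf_le_right)).trans (hE' x))
          (inf_le_right.trans inf_le_left)
      refine h2.trans ?_
      rw [iSup_inf_eq]
      refine iSup_mono fun y => ?_
      rw [iSup_inf_eq]
      refine iSup_mono fun hy => ?_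
      exact (ext_tr4 m _ (V n)).compl x y.1
    have h1 : ∀ᶠ h in ae B, ∀ n, ∀ y : E', (⨆ i, bmem (D.mul (D.inv (d i)) y.1).1 (U n)) ∈ h ↔
        ∃ i, bmem (D.mul (D.inv (d i)) y.1).1 (U n) ∈ h :=
      ae_all fun n => ae_all fun y => ae_iSup _
    filter_upwards [h1, hF] with h h1 h2 hbh n
    have hΓh : Γ ∈ h := h.mono (hba.trans haΓ) hbh
    have h3 := h.mono (key n) hbh
    rw [h.mem_finset_iSup] at h3
    obtain ⟨y, hy, h4⟩ := h3
    refine ⟨y, hy, ?_⟩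
    rw [h.mem_compl] at h4
    by_contra hcon
    push Not at hcon
    apply h4
    have h5 : rl D (fun n x => bmem x.1 (U n)) d y n
        (fv (rl D (fun n x => bmem x.1 (U n)) d y) h n) ∈ h := by
      refine fv_mem' ?_
      exact (h1 n ⟨y, hy⟩).1 (h.mono (hU.dns n y) hΓh)
    have h6 : F n (fv F h n) ∈ h := fv_mem' (h2 n).exists
    set i := fv (rl D (fun n x => bmem x.1 (U n)) d y) h n with hi
    have h7 : ltF F n i ∈ h := h.mono (le_iSup_of_le (fv F h n) (le_iSup_of_le hcon le_rfl)) h6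
    have h8 : bmem (D.mul (D.inv (d i)) y).1 (U n) ∈ h := h5
    refine h.mono ?_ (h.inf _ _ hΓh (h.inf _ _ h7 h8))
    refine le_iSup_of_le (d i).1 (le_iSup_of_le (D.mul (D.inv (d i)) y).1
      (le_inf (le_inf ?_ ?_) ?_))
    · exact (inf_le_right.trans inf_le_left).trans (mem_dset_self d (ltF F n) i)
    · exact sub_apply (hUV n) _ inf_le_left (inf_le_right.trans inf_le_right)
    · exact inf_le_left.trans (op_of_eq hD (mul_inv_mul hD (d i) y))

end Pool.Agent.Lib.MP_6d445e_gt.H38
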